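import Mathlib
import Pool.Agent.Helper20.RW.Pairs

set_option autoImplicit false

open Filter Topology

namespace Pool.Agent.Helper20.RW

/-- The set of the points which agree with `w` below `l`, in the coordinates below `l`. -/
def cyl (w : ℕ → ℕ → Bool) (l : ℕ) : Set (ℕ → ℕ → Bool) :=
  {v | ∀ x < l, ∀ j < l, v x j = w x j}

theorem self_mem_cyl (w : ℕ → ℕ → Bool) (l : ℕ) : w ∈ cyl w l := fun _ _ _ _ => rfl

theorem continuous_coord (x j : ℕ) : Continuous fun w : ℕ → ℕ → Bool => w x j :=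
  (continuous_apply j).comp (continuous_apply x)

theorem isOpen_cyl (w : ℕ → ℕ → Bool) (l : ℕ) : IsOpen (cyl w l) := by
  have e : cyl w l = ⋂ x ∈ Finset.range l, ⋂ j ∈ Finset.range l,
      {v : ℕ → ℕ → Bool | v x j = w x j} := by
    ext v
    simp [cyl]
  rw [e]
  refine isOpen_biInter_finset fun x _ => isOpen_biInter_finset fun j _ => ?_
  exact (isOpen_discrete ({w x j} : Set Bool)).preimage (continuous_coord x j)

theorem exists_cyl {O : Set (ℕ → ℕ → Bool)} (hO : IsOpen O)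
    {w : ℕ → ℕ → Bool} (hw : w ∈ O) (l : ℕ) : ∃ N, l ≤ N ∧ cyl w N ⊆ O := by
  obtain ⟨I, u, hu, hsub⟩ := isOpen_pi_iff.1 hO w hw
  have hu' : ∀ x, ∃ n, x ∈ I → ∀ v : ℕ → Bool, (∀ j < n, v j = w x j) → v ∈ u x := by
    intro x
    by_cases hx : x ∈ I
    · obtain ⟨_, ⟨y, n, rfl⟩, hwx, hs⟩ :=
        (PiNat.isTopologicalBasis_cylinders (fun _ => Bool)).exists_subset_of_mem_open
          (hu x hx).2 (hu x hx).1
      refine ⟨n, fun _ v hv => hs ?_⟩
      rw [PiNat.mem_cylinder_iff] at hwx ⊢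
      intro i hi
      rw [hv i hi, hwx i hi]
    · exact ⟨0, fun h => absurd h hx⟩
  choose n hn using hu'
  refine ⟨l + (I.sup id + 1) + I.sup n, by omega, fun v hv => hsub ?_⟩
  intro x hx
  apply hn x hx
  intro j hj
  have h1 : x ≤ I.sup id := Finset.le_sup (f := id) hx
  have h2 : n x ≤ I.sup n := Finset.le_sup hx
  exact hv x (by omega) j (by omega)

/-- Nodes: a point and a length; `ext a b` says that `b` extends `a`. -/
def ext (a b : (ℕ → ℕ → Bool) × ℕ) : Prop := a.2 ≤ b.2 ∧ b.1 ∈ cyl a.1 a.2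

theorem ext_refl (a : (ℕ → ℕ → Bool) × ℕ) : ext a a :=
  ⟨le_rfl, self_mem_cyl _ _⟩

theorem cyl_subset {a b : (ℕ → ℕ → Bool) × ℕ} (h : ext a b) :
    cyl b.1 b.2 ⊆ cyl a.1 a.2 :=
  fun _ hv x hx j hj => (hv x (lt_of_lt_of_le hx h.1) j (lt_of_lt_of_le hj h.1)).trans
    (h.2 x hx j hj)

theorem ext_trans {a b c : (ℕ → ℕ → Bool) × ℕ} (h : ext a b) (h' : ext b c) :
    ext a c :=
  ⟨h.1.trans h'.1, cyl_subset h h'.2⟩

/-- A decreasing assignment of finite sets becomes constant somewhere. -/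
theorem stab {N A : Type*} (r : N → N → Prop) (hr : ∀ a, r a a)
    (ht : ∀ a b c, r a b → r b c → r a c) (s : N → Set A) (a₀ : N) (hfin : (s a₀).Finite)
    (hs : ∀ a b, r a₀ a → r a b → s b ⊆ s a) :
    ∃ a₁, r a₀ a₁ ∧ ∀ a, r a₁ a → s a = s a₁ := by
  have hex : ∃ n, ∃ a, r a₀ a ∧ (s a).ncard = n := ⟨_, a₀, hr a₀, rfl⟩
  classical
  obtain ⟨a₁, h01, hn⟩ := Nat.find_spec hex
  refine ⟨a₁, h01, fun a ha => ?_⟩
  refine Set.eq_of_subset_of_ncard_le (hs a₁ a h01 ha) ?_ (hfin.subset (hs a₀ a₁ (hr a₀) h01))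
  rw [hn]
  exact Nat.find_min' hex ⟨a, ht _ _ _ h01 ha, rfl⟩

/-- For every late pair of places the set `O` has a point in which the coordinate `j`
distinguishes the two places. -/
def Split (O : Set (ℕ → ℕ → Bool)) (l : ℕ) (j : ℕ) : Prop :=
  ∀ y y', y < y' → l ≤ y' → ∃ v ∈ O, v y j ≠ v y' j

theorem split_cyl (w : ℕ → ℕ → Bool) (l : ℕ) (j : ℕ) : Split (cyl w l) l j := by
  classical
  intro y y' hy hl
  refine ⟨Function.update w y' fun i => !(w y i), fun x hx i _ => ?_, ?_⟩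
  · rw [Function.update_of_ne (by omega)]
  · rw [Function.update_self, Function.update_of_ne (by omega)]
    simp

/-- At every node some colour and some of its coordinates have the splitting property. -/
theorem exists_split {κ : Type*} (I : Finset κ) (J : κ → Finset ℕ)
    (hcard : ∑ i ∈ I, (1 / 2 : ℚ) ^ (J i).card < 1) (u : κ → Set (ℕ → ℕ → Bool))
    (hd : Dense (⋃ i ∈ I, u i)) (w : ℕ → ℕ → Bool) (l : ℕ) :
    ∃ i ∈ I, ∃ j ∈ J i, Split (cyl w l ∩ u i) l j := by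
  classical
  by_contra hcon
  have hcon' : ∀ (i : κ) (j : ℕ), ∃ y y', i ∈ I → j ∈ J i → y < y' ∧ l ≤ y' ∧
      ∀ v ∈ cyl w l ∩ u i, v y j = v y' j := by
    intro i j
    by_cases h : i ∈ I ∧ j ∈ J i
    · have h1 : ¬ Split (cyl w l ∩ u i) l j := fun h' => hcon ⟨i, h.1, j, h.2, h'⟩
      simp only [Split, not_forall, not_exists, not_and, not_not] at h1
      obtain ⟨y, y', h2, h3, h4⟩ := h1
      exact ⟨y, y', fun _ _ => ⟨h2, h3, h4⟩⟩
    · exact ⟨0, 0, fun h1 h2 => absurd ⟨h1, h2⟩ h⟩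
  choose y y' hy using hcon'
  obtain ⟨v, hv, hvS⟩ := all_trees y y' l w (I.biUnion J) I J
    (fun i hi => Finset.subset_biUnion_of_mem J hi)
    (fun i hi j hj => (hy i j hi hj).1) (fun i hi j hj => (hy i j hi hj).2.1) hcard
  obtain ⟨N, hN⟩ : ∃ N, ∀ i ∈ I, ∀ j ∈ J i, y' i j < N ∧ j < N := by
    refine ⟨(I.biUnion J).sup (fun j => j + I.sup fun i => y' i j) + 1, fun i hi j hj => ?_⟩
    have h1 : j + (I.sup fun i => y' i j) ≤
        (I.biUnion J).sup (fun j => j + I.sup fun i => y' i j) :=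
      Finset.le_sup (f := fun j => j + I.sup fun i => y' i j)
        (Finset.mem_biUnion.2 ⟨i, hi, hj⟩)
    have h2 : y' i j ≤ I.sup fun i => y' i j := Finset.le_sup (f := fun i => y' i j) hi
    omega
  obtain ⟨v', hv', hvu⟩ := hd.exists_mem_open (isOpen_cyl v (max l N)) ⟨v, self_mem_cyl _ _⟩
  obtain ⟨i, hi, hiu⟩ := Set.mem_iUnion₂.1 hv'
  obtain ⟨j, hj, hne⟩ := hvS i hi
  apply hne
  obtain ⟨h1, h2, h3⟩ := hy i j hi hj
  obtain ⟨h4, h5⟩ := hN i hi j hj
  have h6 := h3 v' ⟨fun x hx i _ => by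
    rw [hvu x (lt_of_lt_of_le hx (le_max_left _ _)) i (by omega), hv x hx], hiu⟩
  rw [hvu (y i j) (by omega) j (by omega), hvu (y' i j) (by omega) j (by omega)] at h6
  exact h6

/-- An infinite set all of whose finite subsets are good. -/
theorem exists_infinite {q : Filter ℕ} [q.NeBot] (hq : q ≤ cofinite) {X : Set ℕ} (hX : X ∈ q)
    (R : Finset ℕ → Prop) (h0 : R ∅) (hmono : ∀ D D', D ⊆ D' → R D' → R D)
    (hstep : ∀ D, R D → ∀ᶠ k in q, R (insert k D)) :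
    ∃ X' ⊆ X, X'.Infinite ∧ ∀ D : Finset ℕ, ↑D ⊆ X' → R D := by
  classical
  have hnext : ∀ D : {D : Finset ℕ // R D ∧ (↑D : Set ℕ) ⊆ X},
      ∃ D' : {D : Finset ℕ // R D ∧ (↑D : Set ℕ) ⊆ X}, D.1 ⊆ D'.1 ∧ D.1.card < D'.1.card := by
    rintro ⟨D, hD, hDX⟩
    have h1 : ∀ᶠ k in q, k ∉ D := hq (by
      have : (D : Set ℕ).Finite := D.finite_toSet
      exact this.compl_mem_cofinite)
    obtain ⟨k, hk, hkD, hkX⟩ := ((hstep D hD).and (h1.and hX)).exists
    refine ⟨⟨insert k D, hk, ?_⟩, Finset.subset_insert _ _, ?_⟩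
    · intro x hx
      rcases Finset.mem_insert.1 (Finset.mem_coe.1 hx) with rfl | hx
      · exact hkX
      · exact hDX hx
    · rw [Finset.card_insert_of_notMem hkD]
      exact Nat.lt_succ_self _
  choose nx hnx hnc using hnext
  let s : ℕ → {D : Finset ℕ // R D ∧ (↑D : Set ℕ) ⊆ X} := fun n => nx^[n] ⟨∅, h0, by simp⟩
  have hs : ∀ n, s (n + 1) = nx (s n) := fun n => Function.iterate_succ_apply' _ _ _
  have hmon : Monotone fun n => (s n).1 := by
    apply monotone_nat_of_le_succ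
    intro n
    rw [hs]
    exact hnx _
  have hc : ∀ n, n ≤ (s n).1.card := by
    intro n
    induction n with
    | zero => exact Nat.zero_le _
    | succ n ih =>
      have := hnc (s n)
      rw [← hs] at this
      omega
  refine ⟨⋃ n, ((s n).1 : Set ℕ), Set.iUnion_subset fun n => (s n).2.2, ?_, ?_⟩
  · intro hfin
    have h2 : (s (hfin.toFinset.card + 1)).1 ⊆ hfin.toFinset := by
      intro x hx
      rw [Set.Finite.mem_toFinset]
      exact Set.mem_iUnion.2 ⟨_, Finset.mem_coe.2 hx⟩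
    have := Finset.card_le_card h2
    have := hc (hfin.toFinset.card + 1)
    omega
  · intro D hD
    have hex : ∃ n, D ⊆ (s n).1 := by
      induction D using Finset.induction_on with
      | empty => exact ⟨0, Finset.empty_subset _⟩
      | insert a D ha ih =>
        obtain ⟨n, hn⟩ := ih (fun x hx => hD (Finset.mem_coe.2
          (Finset.mem_insert_of_mem (Finset.mem_coe.1 hx))))
        obtain ⟨m, hm⟩ := Set.mem_iUnion.1 (hD (Finset.mem_coe.2 (Finset.mem_insert_self a D)))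
        refine ⟨max n m, Finset.insert_subset ?_ ?_⟩
        · exact hmon (le_max_right n m) hm
        · exact hn.trans (hmon (le_max_left n m))
    obtain ⟨n, hn⟩ := hex
    exact hmono _ _ hn (s n).2.1

/-- The combinatorial lemma. -/
theorem large {κ : Type*} [Finite κ] (I : Finset κ) (J : κ → Finset ℕ)
    (hcard : ∑ i ∈ I, (1 / 2 : ℚ) ^ (J i).card < 1)
    (u : κ → ℕ → Set (ℕ → ℕ → Bool)) (hu : ∀ i k, IsOpen (u i k))
    (X : Set ℕ) (hX : X.Infinite) (hd : ∀ k ∈ X, Dense (⋃ i ∈ I, u i k))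
    (w₀ : ℕ → ℕ → Bool) (l₀ : ℕ) (hl₀ : ∀ i ∈ I, ∀ j ∈ J i, j < l₀) :
    ∃ i ∈ I, ∃ j ∈ J i, ∃ (l : ℕ) (X' : Set ℕ), X' ⊆ X ∧ X'.Infinite ∧
      ∀ D : Finset ℕ, ↑D ⊆ X' → Split (cyl w₀ l₀ ∩ {v | ∀ k ∈ D, v ∈ u i k}) l j := by
  classical
  have : (cofinite ⊓ 𝓟 X).NeBot := cofinite_inf_principal_neBot_iff.2 hX
  obtain ⟨q, hq⟩ : ∃ q : Ultrafilter ℕ, (q : Filter ℕ) ≤ cofinite ⊓ 𝓟 X :=
    ⟨Ultrafilter.of _, Ultrafilter.of_le _⟩
  have hqc : (q : Filter ℕ) ≤ cofinite := hq.trans inf_le_left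
  have hqX : X ∈ (q : Filter ℕ) := hq (mem_inf_of_right (mem_principal_self X))
  -- the places where a colour is seen
  let P : (ℕ → ℕ → Bool) × ℕ → Set κ := fun a =>
    {i | ∀ᶠ k in (q : Filter ℕ), (cyl a.1 a.2 ∩ u i k).Nonempty}
  obtain ⟨a₁, h01, hP⟩ := stab ext ext_refl (fun _ _ _ => ext_trans) P (w₀, l₀)
    (Set.toFinite _) (by
      intro a b _ hab i hi
      exact Eventually.mono hi fun k hk =>
        hk.mono (Set.inter_subset_inter_left _ (cyl_subset hab)))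
  let T : (ℕ → ℕ → Bool) × ℕ → Set (κ × ℕ) := fun a =>
    {p | (p.1 ∈ I ∧ p.2 ∈ J p.1) ∧
      ∀ᶠ k in (q : Filter ℕ), Split (cyl a.1 a.2 ∩ u p.1 k) a.2 p.2}
  have hIJ : {p : κ × ℕ | p.1 ∈ I ∧ p.2 ∈ J p.1}.Finite := by
    refine Set.Finite.subset ((I ×ˢ I.biUnion J : Finset (κ × ℕ)).finite_toSet) ?_
    rintro ⟨i, j⟩ ⟨hi, hj⟩
    rw [Finset.mem_coe, Finset.mem_product]
    exact ⟨hi, Finset.mem_biUnion.2 ⟨i, hi, hj⟩⟩
  have hTP : ∀ a i j, (i, j) ∈ T a → i ∈ P a := by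
    intro a i j h
    refine Eventually.mono h.2 fun k hk => ?_
    obtain ⟨v, hv, _⟩ := hk a.2 (a.2 + 1) (by omega) (by omega)
    exact ⟨v, hv⟩
  have hT : ∀ a b, ext a₁ a → ext a b → T b ⊆ T a := by
    rintro a b h1a hab ⟨i, j⟩ hb
    have hiP : i ∈ P a₁ := by
      rw [← hP b (ext_trans h1a hab)]
      exact hTP b i j hb
    have hjb : j < b.2 := by
      have h2 : j < l₀ := hl₀ i hb.1.1 j hb.1.2
      have h3 : l₀ ≤ a₁.2 := h01.1
      have h4 := h1a.1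
      have h5 := hab.1
      omega
    -- the finitely many pairs below the length of `b`
    have hfin : ∀ᶠ k in (q : Filter ℕ), ∀ y ∈ Finset.range b.2, ∀ y' ∈ Finset.range b.2,
        y < y' → a.2 ≤ y' → ∃ v ∈ cyl a.1 a.2 ∩ u i k, v y j ≠ v y' j := by
      simp only [Finset.eventually_all]
      intro y _ y' hy'
      rw [Finset.mem_range] at hy'
      by_cases hyy : y < y' ∧ a.2 ≤ y'
      · let c : (ℕ → ℕ → Bool) × ℕ := (Function.update b.1 y' fun i => !(b.1 y i), b.2)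
        have hac : ext a c := by
          refine ⟨hab.1, fun x hx i hi => ?_⟩
          change Function.update b.1 y' (fun i => !(b.1 y i)) x i = a.1 x i
          rw [Function.update_of_ne (by omega)]
          exact hab.2 x hx i hi
        have hiPc : i ∈ P c := by
          rw [hP c (ext_trans h1a hac)]
          exact hiP
        refine Eventually.mono hiPc fun k hk _ _ => ?_
        obtain ⟨v, hvc, hvu⟩ := hk
        refine ⟨v, ⟨cyl_subset hac hvc, hvu⟩, ?_⟩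
        have e1 : v y j = b.1 y j := by
          rw [hvc y (by change y < b.2; omega) j hjb]
          change Function.update b.1 y' (fun i => !(b.1 y i)) y j = b.1 y j
          rw [Function.update_of_ne (by omega)]
        have e2 : v y' j = !(b.1 y j) := by
          rw [hvc y' hy' j hjb]
          change Function.update b.1 y' (fun i => !(b.1 y i)) y' j = !(b.1 y j)
          rw [Function.update_self]
        rw [e1, e2]
        simp
      · exact Eventually.of_forall fun k h1 h2 => absurd ⟨h1, h2⟩ hyy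
    refine ⟨hb.1, (Eventually.and hb.2 hfin).mono ?_⟩
    rintro k ⟨hk1, hk2⟩ y y' hyy hl
    by_cases hb' : b.2 ≤ y'
    · obtain ⟨v, ⟨hv1, hv2⟩, hne⟩ := hk1 y y' hyy hb'
      exact ⟨v, ⟨cyl_subset hab hv1, hv2⟩, hne⟩
    · exact hk2 y (Finset.mem_range.2 (by omega)) y' (Finset.mem_range.2 (by omega)) hyy hl
  obtain ⟨a₂, h12, hTc⟩ := stab ext ext_refl (fun _ _ _ => ext_trans) T a₁
    (hIJ.subset fun p hp => hp.1) hT
  have hne : (T a₂).Nonempty := by
    have h1 : ∀ᶠ k in (q : Filter ℕ), ∃ p ∈ {p : κ × ℕ | p.1 ∈ I ∧ p.2 ∈ J p.1},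
        Split (cyl a₂.1 a₂.2 ∩ u p.1 k) a₂.2 p.2 := by
      filter_upwards [hqX] with k hk
      obtain ⟨i, hi, j, hj, h⟩ := exists_split I J hcard (fun i => u i k) (hd k hk) a₂.1 a₂.2
      exact ⟨(i, j), ⟨hi, hj⟩, h⟩
    obtain ⟨p, hp, hp'⟩ := (Ultrafilter.eventually_exists_mem_iff hIJ).1 h1
    exact ⟨p, hp, hp'⟩
  obtain ⟨⟨i, j⟩, hij⟩ := hne
  have hall : ∀ a, ext a₂ a → ∀ᶠ k in (q : Filter ℕ), Split (cyl a.1 a.2 ∩ u i k) a.2 j := by
    intro a ha
    have : (i, j) ∈ T a := by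
      rw [hTc a ha]
      exact hij
    exact this.2
  have hj₂ : j < a₂.2 := by
    have h2 : j < l₀ := hl₀ i hij.1.1 j hij.1.2
    have h3 : l₀ ≤ a₁.2 := h01.1
    have h4 := h12.1
    omega
  -- one step
  have hstep : ∀ O : Set (ℕ → ℕ → Bool), IsOpen O → O ⊆ cyl a₂.1 a₂.2 → Split O a₂.2 j →
      ∀ᶠ k in (q : Filter ℕ), Split (O ∩ u i k) a₂.2 j := by
    intro O hO hOc hS
    obtain ⟨v₀, hv₀, _⟩ := hS a₂.2 (a₂.2 + 1) (by omega) (by omega)
    obtain ⟨N, hN, hNO⟩ := exists_cyl hO hv₀ a₂.2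
    have h1 := hall (v₀, N) ⟨hN, hOc hv₀⟩
    have hfin : ∀ᶠ k in (q : Filter ℕ), ∀ y ∈ Finset.range N, ∀ y' ∈ Finset.range N,
        y < y' → a₂.2 ≤ y' → ∃ v ∈ O ∩ u i k, v y j ≠ v y' j := by
      simp only [Finset.eventually_all]
      intro y _ y' hy'
      rw [Finset.mem_range] at hy'
      by_cases hyy : y < y' ∧ a₂.2 ≤ y'
      · obtain ⟨v₁, hv₁, hne₁⟩ := hS y y' hyy.1 hyy.2
        obtain ⟨N₁, hN₁, hNO₁⟩ := exists_cyl hO hv₁ (max a₂.2 (y' + 1))
        have h2 := hall (v₁, N₁) ⟨(le_max_left _ _).trans hN₁, hOc hv₁⟩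
        refine h2.mono fun k hk _ _ => ?_
        obtain ⟨v, ⟨hv1, hv2⟩, _⟩ := hk N₁ (N₁ + 1) (by omega) (by
          change N₁ ≤ N₁ + 1
          omega)
        refine ⟨v, ⟨hNO₁ hv1, hv2⟩, ?_⟩
        have h3 : y' + 1 ≤ N₁ := (le_max_right _ _).trans hN₁
        have h4 : a₂.2 ≤ N₁ := (le_max_left _ _).trans hN₁
        have e1 : v y j = v₁ y j := hv1 y (by change y < N₁; omega) j (by change j < N₁; omega)
        have e2 : v y' j = v₁ y' j :=
          hv1 y' (by change y' < N₁; omega) j (by change j < N₁; omega)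
        rw [e1, e2]
        exact hne₁
      · exact Eventually.of_forall fun k h1 h2 => absurd ⟨h1, h2⟩ hyy
    refine (h1.and hfin).mono ?_
    rintro k ⟨hk1, hk2⟩ y y' hyy hl
    by_cases hb' : N ≤ y'
    · obtain ⟨v, ⟨hv1, hv2⟩, hne⟩ := hk1 y y' hyy hb'
      exact ⟨v, ⟨hNO hv1, hv2⟩, hne⟩
    · exact hk2 y (Finset.mem_range.2 (by omega)) y' (Finset.mem_range.2 (by omega)) hyy hl
  -- the recursion
  obtain ⟨X', hX', hinf, hR⟩ := exists_infinite hqc hqX
    (fun D => Split (cyl a₂.1 a₂.2 ∩ {v | ∀ k ∈ D, v ∈ u i k}) a₂.2 j)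
    (by
      have e : cyl a₂.1 a₂.2 ∩ {v | ∀ k ∈ (∅ : Finset ℕ), v ∈ u i k} = cyl a₂.1 a₂.2 := by
        ext v
        simp
      rw [e]
      exact split_cyl _ _ _)
    (by
      intro D D' hDD h y y' hyy hl
      obtain ⟨v, ⟨hv1, hv2⟩, hne⟩ := h y y' hyy hl
      exact ⟨v, ⟨hv1, fun k hk => hv2 k (hDD hk)⟩, hne⟩)
    (by
      intro D hD
      have hopen : IsOpen (cyl a₂.1 a₂.2 ∩ {v | ∀ k ∈ D, v ∈ u i k}) := by
        refine (isOpen_cyl _ _).inter ?_
        have e : {v | ∀ k ∈ D, v ∈ u i k} = ⋂ k ∈ D, u i k := by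
          ext v
          simp
        rw [e]
        exact isOpen_biInter_finset fun k _ => hu i k
      refine (hstep _ hopen Set.inter_subset_left hD).mono fun k hk => ?_
      intro y y' hyy hl
      obtain ⟨v, ⟨⟨hv1, hv2⟩, hv3⟩, hne⟩ := hk y y' hyy hl
      refine ⟨v, ⟨hv1, fun k' hk' => ?_⟩, hne⟩
      rcases Finset.mem_insert.1 hk' with rfl | hk'
      · exact hv3
      · exact hv2 k' hk')
  refine ⟨i, hij.1.1, j, hij.1.2, a₂.2, X', hX', hinf, fun D hD y y' hyy hl => ?_⟩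
  obtain ⟨v, ⟨hv1, hv2⟩, hne⟩ := hR D hD y y' hyy hl
  exact ⟨v, ⟨cyl_subset (ext_trans h01 h12) hv1, hv2⟩, hne⟩

end Pool.Agent.Helper20.RW
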