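import Mathlib
import Pool.Agent.Helper20.RW.Large

set_option autoImplicit false

open Filter Topology

namespace Pool.Agent.Helper20.RW

/-- The colouring `g` uses the colours in `I` only, and for every finite `D ⊆ Y` of one colour
`i` and every `(j, o)` in `B i` the output of the operator `o` on `E i ∪ D` does not meet two
values of the coordinate `j` of `w`. -/
def Valid {κ 𝕆 : Type*} (Op : 𝕆 → Set ℕ → Set ℕ) (I : Finset κ) (B : κ → Finset (ℕ × 𝕆))
    (E : κ → Finset ℕ) (Y : Set ℕ) (w : ℕ → ℕ → Bool) (g : ℕ → κ) : Prop :=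
  (∀ x, g x ∈ I) ∧ ∀ i ∈ I, ∀ b ∈ B i, ∀ D : Finset ℕ, (↑D : Set ℕ) ⊆ Y →
    ∀ y ∈ Op b.2 (↑(E i) ∪ ↑D), ∀ y' ∈ Op b.2 (↑(E i) ∪ ↑D),
      (∀ x ∈ D, g x = i) → w y b.1 = w y' b.1

theorem isClosed_valid {κ 𝕆 : Type*} [TopologicalSpace κ] [DiscreteTopology κ]
    (Op : 𝕆 → Set ℕ → Set ℕ) (I : Finset κ) (B : κ → Finset (ℕ × 𝕆))
    (E : κ → Finset ℕ) (Y : Set ℕ) (h : (ℕ → ℕ → Bool) → ℕ → ℕ → Bool) (hh : Continuous h) :
    IsClosed {p : (ℕ → ℕ → Bool) × (ℕ → κ) | Valid Op I B E Y (h p.1) p.2} := by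
  simp only [Valid, Set.ofPred_and, Set.ofPred_forall]
  refine IsClosed.inter ?_ ?_
  · refine isClosed_iInter fun x => ?_
    have hc : Continuous fun p : (ℕ → ℕ → Bool) × (ℕ → κ) => p.2 x :=
      (continuous_apply x).comp continuous_snd
    exact (isClosed_discrete (I : Set κ)).preimage hc
  · refine isClosed_iInter fun i => isClosed_iInter fun _ => isClosed_iInter fun b =>
      isClosed_iInter fun _ =>
      isClosed_iInter fun D => isClosed_iInter fun _ => isClosed_iInter fun y =>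
      isClosed_iInter fun _ => isClosed_iInter fun y' => isClosed_iInter fun _ => ?_
    refine isClosed_imp ?_ ?_
    · have e : {p : (ℕ → ℕ → Bool) × (ℕ → κ) | ∀ x ∈ D, p.2 x = i}
          = ⋂ x ∈ D, {p : (ℕ → ℕ → Bool) × (ℕ → κ) | p.2 x = i} := by
        ext p
        simp
      rw [e]
      refine isOpen_biInter_finset fun x _ => ?_
      have hc : Continuous fun p : (ℕ → ℕ → Bool) × (ℕ → κ) => p.2 x :=
        (continuous_apply x).comp continuous_snd
      exact (isOpen_discrete ({i} : Set κ)).preimage hc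
    · have hc : ∀ z, Continuous fun p : (ℕ → ℕ → Bool) × (ℕ → κ) => h p.1 z b.1 := fun z =>
        (continuous_apply b.1).comp ((continuous_apply z).comp (hh.comp continuous_fst))
      exact isClosed_eq (hc y) (hc y')

/-- The set of the points which have a valid colouring is closed. -/
theorem isClosed_exists_valid {κ 𝕆 : Type*} [Finite κ] [TopologicalSpace κ]
    [DiscreteTopology κ] (Op : 𝕆 → Set ℕ → Set ℕ) (I : Finset κ) (B : κ → Finset (ℕ × 𝕆))
    (E : κ → Finset ℕ) (Y : Set ℕ) :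
    IsClosed {w : ℕ → ℕ → Bool | ∃ g : ℕ → κ, Valid Op I B E Y w g} := by
  have h := isClosedMap_fst_of_compactSpace _ (isClosed_valid Op I B E Y id continuous_id)
  have e : {w : ℕ → ℕ → Bool | ∃ g : ℕ → κ, Valid Op I B E Y w g}
      = Prod.fst '' {p : (ℕ → ℕ → Bool) × (ℕ → κ) | Valid Op I B E Y (id p.1) p.2} := by
    ext w
    constructor
    · rintro ⟨g, hg⟩
      exact ⟨(w, g), hg, rfl⟩
    · rintro ⟨⟨w', g⟩, hg, rfl⟩
      exact ⟨g, hg⟩
  rw [e]
  exact h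

/-- The static lemma: if all the points of a nonempty open set have valid colourings, then one
operator is finite on all the sets taken from a suitable infinite subset. -/
theorem static {κ 𝕆 : Type} [Finite κ] [TopologicalSpace κ]
    [DiscreteTopology κ] (Op : 𝕆 → Set ℕ → Set ℕ) (I : Finset κ) (B : κ → Finset (ℕ × 𝕆))
    (J : κ → Finset ℕ) (hJ : ∀ i ∈ I, ∀ j, j ∈ J i ↔ ∃ o, (j, o) ∈ B i)
    (hcard : ∑ i ∈ I, (1 / 2 : ℚ) ^ (J i).card < 1)
    (E : κ → Finset ℕ) (Y : Set ℕ)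
    (hY : Y.Infinite) (U : Set (ℕ → ℕ → Bool)) (hU : IsOpen U) (hne : U.Nonempty)
    (hval : ∀ w ∈ U, ∃ g : ℕ → κ, Valid Op I B E Y w g) :
    ∃ X' ⊆ Y, X'.Infinite ∧ ∃ i ∈ I, ∃ b ∈ B i, ∃ l, ∀ D : Finset ℕ, (↑D : Set ℕ) ⊆ X' →
      ∀ y ∈ Op b.2 (↑(E i) ∪ ↑D), ∀ y' ∈ Op b.2 (↑(E i) ∪ ↑D), y < y' → y' < l := by
  classical
  obtain ⟨w₀, hw₀⟩ := hne
  obtain ⟨n₀, hn₀', hn₀⟩ := exists_cyl hU hw₀ ((I.biUnion J).sup id + 1)
  have hl₀ : ∀ i ∈ I, ∀ j ∈ J i, j < n₀ := by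
    intro i hi j hj
    have := Finset.le_sup (f := id) (Finset.mem_biUnion.2 ⟨i, hi, hj⟩)
    simp only [id] at this
    omega
  -- the points moved into the cylinder
  let h : (ℕ → ℕ → Bool) → ℕ → ℕ → Bool := fun w x j =>
    if x < n₀ ∧ j < n₀ then w₀ x j else w x j
  have hh : Continuous h := by
    refine continuous_pi fun x => continuous_pi fun j => ?_
    by_cases hx : x < n₀ ∧ j < n₀
    · simp only [h, hx, if_true, and_self]
      exact continuous_const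
    · simp only [h, hx, if_false]
      exact continuous_coord x j
  have hcyl : ∀ w, h w ∈ cyl w₀ n₀ := fun w x hx j hj => by simp [h, hx, hj]
  have hfix : ∀ w ∈ cyl w₀ n₀, h w = w := by
    intro w hw
    funext x j
    by_cases hx : x < n₀ ∧ j < n₀
    · simp only [h, hx, if_true, and_self]
      exact (hw x hx.1 j hx.2).symm
    · simp only [h, hx, if_false]
  have hcl := isClosed_valid Op I B E Y h hh
  have : CompactSpace {p : (ℕ → ℕ → Bool) × (ℕ → κ) | Valid Op I B E Y (h p.1) p.2} :=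
    isCompact_iff_compactSpace.1 hcl.isCompact
  let π : {p : (ℕ → ℕ → Bool) × (ℕ → κ) | Valid Op I B E Y (h p.1) p.2} → ℕ → ℕ → Bool :=
    fun p => p.1.1
  have hπ : Continuous π := continuous_fst.comp continuous_subtype_val
  have hsurj : Function.Surjective π := by
    intro w
    obtain ⟨g, hg⟩ := hval (h w) (hn₀ (hcyl w))
    exact ⟨⟨(w, g), hg⟩, rfl⟩
  obtain ⟨Z, hZc, hZu, hZm⟩ := exists_compact_surjective_zorn_subset hπ hsurj
  have hZ : ∀ w, ∃ p ∈ Z, π p = w := by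
    intro w
    have : w ∈ π '' Z := by
      rw [hZu]
      exact Set.mem_univ w
    exact this
  have hev : ∀ k, Continuous fun p :
      {p : (ℕ → ℕ → Bool) × (ℕ → κ) | Valid Op I B E Y (h p.1) p.2} => p.1.2 k := fun k =>
    (continuous_apply k).comp (continuous_snd.comp continuous_subtype_val)
  let u : κ → ℕ → Set (ℕ → ℕ → Bool) := fun i k => {w | ∀ p ∈ Z, π p = w → p.1.2 k = i}
  have hu : ∀ i k, IsOpen (u i k) := by
    intro i k
    have e : u i k = (π '' (Z ∩ {p | p.1.2 k ≠ i}))ᶜ := by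
      ext w
      simp only [u, Set.mem_ofPred_eq, Set.mem_compl_iff, Set.mem_image, Set.mem_inter_iff,
        not_exists, not_and, and_imp, ne_eq]
      constructor
      · intro hw p hp hne hpw
        exact hne (hw p hp hpw)
      · intro hw p hp hpw
        by_contra hne
        exact hw p hp hne hpw
    rw [e, isOpen_compl_iff]
    have hcl' : IsClosed {p : {p : (ℕ → ℕ → Bool) × (ℕ → κ) |
        Valid Op I B E Y (h p.1) p.2} | p.1.2 k ≠ i} :=
      (isClosed_discrete ({i}ᶜ : Set κ)).preimage (hev k)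
    have hZk : IsCompact Z := isCompact_iff_compactSpace.2 hZc
    exact ((hZk.inter_right hcl').image hπ).isClosed
  have hd : ∀ k ∈ Y, Dense (⋃ i ∈ I, u i k) := by
    intro k _
    rw [dense_iff_inter_open]
    rintro U₁ hU₁ ⟨w₁, hw₁⟩
    obtain ⟨p₁, hp₁, hpw₁⟩ := hZ w₁
    let i := p₁.1.2 k
    have hi : i ∈ I := p₁.2.1 k
    let E₀ : Set Z := {p | ¬ (π p.1 ∈ U₁ ∧ p.1.1.2 k = i)}
    have hE₀ : IsClosed E₀ := by
      have h1 : IsOpen {p : Z | π p.1 ∈ U₁ ∧ p.1.1.2 k = i} :=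
        (hU₁.preimage (hπ.comp continuous_subtype_val)).inter
          ((isOpen_discrete ({i} : Set κ)).preimage ((hev k).comp continuous_subtype_val))
      exact h1.isClosed_compl
    have hE₀' : E₀ ≠ Set.univ := by
      rw [Set.ne_univ_iff_exists_notMem]
      refine ⟨⟨p₁, hp₁⟩, ?_⟩
      intro hn
      apply hn
      refine ⟨?_, rfl⟩
      rw [hpw₁]
      exact hw₁
    obtain ⟨w, hw⟩ := (Set.ne_univ_iff_exists_notMem _).1 (hZm E₀ hE₀' hE₀)
    have hall : ∀ p ∈ Z, π p = w → π p ∈ U₁ ∧ p.1.2 k = i := by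
      intro p hp hpw
      by_contra hcon
      exact hw ⟨⟨p, hp⟩, hcon, hpw⟩
    obtain ⟨p, hp, hpw⟩ := hZ w
    refine ⟨w, ?_, Set.mem_iUnion₂.2 ⟨i, hi, fun p hp hpw => (hall p hp hpw).2⟩⟩
    rw [← hpw]
    exact (hall p hp hpw).1
  obtain ⟨i, hi, j, hj, l, X', hX', hinf, hL⟩ := large I J hcard u hu Y hY hd w₀ n₀ hl₀
  have key : ∀ D : Finset ℕ, (↑D : Set ℕ) ⊆ X' → ∀ v ∈ cyl w₀ n₀, (∀ k ∈ D, v ∈ u i k) →
      ∃ g : ℕ → κ, Valid Op I B E Y v g ∧ ∀ k ∈ D, g k = i := by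
    intro D _ v hv hvu
    obtain ⟨p, hp, hpv⟩ := hZ v
    refine ⟨p.1.2, ?_, fun k hk => hvu k hk p hp hpv⟩
    have h1 : Valid Op I B E Y (h p.1.1) p.1.2 := p.2
    have h2 : p.1.1 = v := hpv
    rw [h2, hfix v hv] at h1
    exact h1
  obtain ⟨o, ho⟩ := (hJ i hi j).1 hj
  refine ⟨X', hX', hinf, i, hi, (j, o), ho, l, fun D hD y hy y' hy' hyy => ?_⟩
  by_contra hcon
  obtain ⟨v, ⟨hv1, hv2⟩, hne⟩ := hL D hD y y' hyy (by omega)
  obtain ⟨g, hg, hgi⟩ := key D hD v hv1 hv2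
  exact hne (hg.2 i hi (j, o) ho D (hD.trans hX') y hy y' hy' hgi)

end Pool.Agent.Helper20.RW
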