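import Mathlib
import Pool.Agent.Helper20.RW.Static

set_option autoImplicit false

open Filter Topology

namespace Pool.Agent.Helper20.RW

section

variable {κ : Type} {𝕆 : Type}

/-- Indices: the live colours, the pairs (coordinate, operator) of every colour, the stems and a
bound. -/
abbrev Ix (κ 𝕆 : Type) : Type := Finset κ × (κ → Finset (ℕ × 𝕆)) × (κ → Finset ℕ) × ℕ

/-- The coordinates of a finite set of pairs. -/
def coords (B : Finset (ℕ × 𝕆)) : Finset ℕ := B.image Prod.fst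

theorem mem_coords {B : Finset (ℕ × 𝕆)} {j : ℕ} : j ∈ coords B ↔ ∃ o, (j, o) ∈ B := by
  unfold coords
  rw [Finset.mem_image]
  constructor
  · rintro ⟨⟨j', o⟩, h, rfl⟩
    exact ⟨o, h⟩
  · rintro ⟨o, h⟩
    exact ⟨(j, o), h, rfl⟩

/-- One operator is finite on all the sets taken from `X'`. -/
def Silent (Op : 𝕆 → Set ℕ → Set ℕ) (a : Ix κ 𝕆) (X' : Set ℕ) : Prop :=
  ∃ i ∈ a.1, ∃ b ∈ a.2.1 i, ∃ l, ∀ D : Finset ℕ, (↑D : Set ℕ) ⊆ X' →
    ∀ y ∈ Op b.2 (↑(a.2.2.1 i) ∪ ↑D), ∀ y' ∈ Op b.2 (↑(a.2.2.1 i) ∪ ↑D), y < y' → y' < l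

/-- Pass to an infinite subset on which one operator is finite, if there is one. -/
noncomputable def step (Op : 𝕆 → Set ℕ → Set ℕ) (a : Ix κ 𝕆) (X : Set ℕ) : Set ℕ :=
  open Classical in
  if h : ∃ X' ⊆ X ∩ Set.Ici a.2.2.2, X'.Infinite ∧ Silent Op a X' then h.choose else X

theorem step_subset (Op : 𝕆 → Set ℕ → Set ℕ) (a : Ix κ 𝕆) (X : Set ℕ) :
    step Op a X ⊆ X := by
  unfold step
  split_ifs with h
  · exact h.choose_spec.1.trans Set.inter_subset_left
  · exact subset_rfl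

theorem step_infinite (Op : 𝕆 → Set ℕ → Set ℕ) (a : Ix κ 𝕆) {X : Set ℕ} (hX : X.Infinite) :
    (step Op a X).Infinite := by
  unfold step
  split_ifs with h
  · exact h.choose_spec.2.1
  · exact hX

theorem step_silent (Op : 𝕆 → Set ℕ → Set ℕ) (a : Ix κ 𝕆) {X : Set ℕ}
    (h : ∃ X' ⊆ X ∩ Set.Ici a.2.2.2, X'.Infinite ∧ Silent Op a X') :
    Silent Op a (step Op a X) := by
  unfold step
  rw [dif_pos h]
  exact h.choose_spec.2.2

/-- The reservoirs. -/
noncomputable def res (Op : 𝕆 → Set ℕ → Set ℕ) : List (Ix κ 𝕆) → Set ℕ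
  | [] => Set.univ
  | a :: l => step Op a (res Op l)

theorem res_infinite (Op : 𝕆 → Set ℕ → Set ℕ) (l : List (Ix κ 𝕆)) :
    (res Op l).Infinite := by
  induction l with
  | nil => exact Set.infinite_univ
  | cons a l ih => exact step_infinite Op a ih

theorem res_suffix (Op : 𝕆 → Set ℕ → Set ℕ) {l l' : List (Ix κ 𝕆)} (h : l <:+ l') :
    res Op l' ⊆ res Op l := by
  obtain ⟨t, rfl⟩ := h
  induction t with
  | nil => exact subset_rfl
  | cons a t ih => exact (step_subset Op a _).trans ih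

/-- The points with a valid colouring. -/
def NN (Op : 𝕆 → Set ℕ → Set ℕ) (a : Ix κ 𝕆) (X : Set ℕ) : Set (ℕ → ℕ → Bool) :=
  {w | ∃ g : ℕ → κ, Valid Op a.1 a.2.1 a.2.2.1 (X ∩ Set.Ici a.2.2.2) w g}

theorem isClosed_NN [Finite κ] (Op : 𝕆 → Set ℕ → Set ℕ) (a : Ix κ 𝕆) (X : Set ℕ) :
    IsClosed (NN Op a X) := by
  let _ : TopologicalSpace κ := ⊥
  have : DiscreteTopology κ := ⟨rfl⟩
  exact isClosed_exists_valid Op _ _ _ _

/-- A point off the boundary of all the closed sets. -/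
theorem exists_generic [Countable 𝕆] (Op : 𝕆 → Set ℕ → Set ℕ) :
    ∃ w : ℕ → ℕ → Bool, ∀ (c : ℕ) (a : Ix (Fin c) 𝕆) (l : List (Ix (Fin c) 𝕆)),
      w ∉ frontier (NN Op a (res Op l)) := by
  have hd : Dense (⋂ p : Σ c : ℕ, Ix (Fin c) 𝕆 × List (Ix (Fin c) 𝕆),
      (frontier (NN Op p.2.1 (res Op p.2.2)))ᶜ) := by
    apply dense_iInter_of_isOpen
    · intro p
      exact isClosed_frontier.isOpen_compl
    · intro p
      rw [← interior_eq_empty_iff_dense_compl]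
      exact interior_frontier (isClosed_NN Op p.2.1 (res Op p.2.2))
  obtain ⟨w, hw⟩ := hd.nonempty
  exact ⟨w, fun c a l => Set.mem_iInter.1 hw ⟨c, a, l⟩⟩

/-- Conditions: a list of indices, stems and a bound. -/
abbrev St (κ 𝕆 : Type) : Type := List (Ix κ 𝕆) × (κ → Finset ℕ) × ℕ

/-- The good conditions. -/
def Good (Op : 𝕆 → Set ℕ → Set ℕ) (f : ℕ → κ) (I : Finset κ) (l₀ : List (Ix κ 𝕆))
    (s : St κ 𝕆) : Prop :=
  l₀ <:+ s.1 ∧ (∀ x ∈ res Op s.1, s.2.2 ≤ x → f x ∈ I) ∧ ∀ i ∈ I, ∀ x ∈ s.2.1 i, f x = i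

/-- The order of the conditions. -/
def Le (Op : 𝕆 → Set ℕ → Set ℕ) (I : Finset κ) (s s' : St κ 𝕆) : Prop :=
  s.1 <:+ s'.1 ∧ s.2.2 ≤ s'.2.2 ∧ ∀ i ∈ I, s.2.1 i ⊆ s'.2.1 i ∧
    ∀ x ∈ s'.2.1 i, x ∉ s.2.1 i → x ∈ res Op s.1 ∧ s.2.2 ≤ x

/-- A family of sets compatible with a condition. -/
def Comp (Op : 𝕆 → Set ℕ → Set ℕ) (I : Finset κ) (s : St κ 𝕆) (H : κ → Set ℕ) : Prop :=
  ∀ i ∈ I, ↑(s.2.1 i) ⊆ H i ∧ ∀ x ∈ H i, x ∉ s.2.1 i → x ∈ res Op s.1 ∧ s.2.2 ≤ x

theorem le_refl' (Op : 𝕆 → Set ℕ → Set ℕ) (I : Finset κ) (s : St κ 𝕆) : Le Op I s s :=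
  ⟨List.suffix_rfl, le_rfl, fun _ _ => ⟨subset_rfl, fun _ h h' => absurd h h'⟩⟩

theorem le_trans' {Op : 𝕆 → Set ℕ → Set ℕ} {I : Finset κ} {s s' s'' : St κ 𝕆}
    (h : Le Op I s s') (h' : Le Op I s' s'') : Le Op I s s'' := by
  refine ⟨h.1.trans h'.1, h.2.1.trans h'.2.1, fun i hi => ⟨(h.2.2 i hi).1.trans
    (h'.2.2 i hi).1, fun x hx hx' => ?_⟩⟩
  by_cases hxs : x ∈ s'.2.1 i
  · exact (h.2.2 i hi).2 x hxs hx'
  · obtain ⟨h1, h2⟩ := (h'.2.2 i hi).2 x hx hxs
    exact ⟨res_suffix Op h.1 h1, h.2.1.trans h2⟩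

/-- The operator `o` does not compute an infinite set homogeneous for the coordinate `j`. -/
def Fails (Op : 𝕆 → Set ℕ → Set ℕ) (w : ℕ → ℕ → Bool) (H : Set ℕ) (b : ℕ × 𝕆) : Prop :=
  (Op b.2 H).Infinite → ∃ y ∈ Op b.2 H, ∃ y' ∈ Op b.2 H, w y b.1 ≠ w y' b.1

/-- The tasks. -/
def Met (Op : 𝕆 → Set ℕ → Set ℕ) (I : Finset κ) (w : ℕ → ℕ → Bool) :
    (κ → Finset (ℕ × 𝕆)) ⊕ (κ × ℕ) → St κ 𝕆 → Prop
  | Sum.inl B, s => ∑ i ∈ I, (1 / 2 : ℚ) ^ (coords (B i)).card < 1 →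
      ∀ H : κ → Set ℕ, Comp Op I s H → ∃ i ∈ I, ∃ b ∈ B i, Fails Op w (H i) b
  | Sum.inr (i, r), s => i ∈ I → ∃ x ∈ s.2.1 i, r ≤ x

theorem meet_op [Finite κ] (Op : 𝕆 → Set ℕ → Set ℕ)
    (hOp : ∀ o V y, y ∈ Op o V → ∃ k, ∀ V' : Set ℕ, (∀ x < k, x ∈ V' ↔ x ∈ V) → y ∈ Op o V')
    (f : ℕ → κ) (I : Finset κ) (hI : I.Nonempty) (l₀ : List (Ix κ 𝕆)) (w : ℕ → ℕ → Bool)
    (hw : ∀ (a : Ix κ 𝕆) (l : List (Ix κ 𝕆)), w ∉ frontier (NN Op a (res Op l)))
    (s : St κ 𝕆) (hs : Good Op f I l₀ s) (B : κ → Finset (ℕ × 𝕆)) :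
    ∃ s', Good Op f I l₀ s' ∧ Le Op I s s' ∧ Met Op I w (Sum.inl B) s' := by
  classical
  by_cases hcard : ∑ i ∈ I, (1 / 2 : ℚ) ^ (coords (B i)).card < 1
  swap
  · exact ⟨s, hs, le_refl' _ _ _, fun h => absurd h hcard⟩
  let _ : TopologicalSpace κ := ⊥
  have : DiscreteTopology κ := ⟨rfl⟩
  obtain ⟨l, E, m⟩ := s
  obtain ⟨i₀, hi₀⟩ := hI
  let a : Ix κ 𝕆 := (I, B, E, m)
  by_cases hN : w ∈ NN Op a (res Op l)
  · -- the silent case
    have hint : w ∈ interior (NN Op a (res Op l)) := by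
      by_contra hcon
      apply hw a l
      rw [(isClosed_NN Op a (res Op l)).frontier_eq]
      exact ⟨hN, hcon⟩
    have hY : (res Op l ∩ Set.Ici m).Infinite := by
      have h1 : (res Op l \ Set.Iio m).Infinite := (res_infinite Op l).sdiff (Set.finite_Iio m)
      refine h1.mono ?_
      rintro x ⟨hx, hx'⟩
      exact ⟨hx, Set.mem_Ici.2 (not_lt.1 fun h => hx' (Set.mem_Iio.2 h))⟩
    obtain ⟨X', hX', hinf, hsil⟩ := static Op I B (fun i => coords (B i))
      (fun i _ j => mem_coords) hcard E (res Op l ∩ Set.Ici m) hY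
      (interior (NN Op a (res Op l))) isOpen_interior ⟨w, hint⟩
      (fun v hv => (interior_subset hv : v ∈ NN Op a (res Op l)))
    have hsil' : Silent Op a (res Op (a :: l)) := step_silent Op a ⟨X', hX', hinf, hsil⟩
    have hsub : res Op (a :: l) ⊆ res Op l := step_subset Op a _
    refine ⟨(a :: l, E, m), ⟨hs.1.trans (List.suffix_cons a l),
      fun x hx hmx => hs.2.1 x (hsub hx) hmx, hs.2.2⟩,
      ⟨List.suffix_cons a l, le_rfl, fun i _ => ⟨subset_rfl, fun x h h' => absurd h h'⟩⟩, ?_⟩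
    intro _ H hH
    obtain ⟨i, hi, b, hb, n, hn⟩ := hsil'
    refine ⟨i, hi, b, hb, fun hO => ?_⟩
    exfalso
    obtain ⟨y, hy⟩ := hO.nonempty
    obtain ⟨y', hy', hlt⟩ := hO.exists_gt (max y n)
    obtain ⟨k₁, hk₁⟩ := hOp _ _ _ hy
    obtain ⟨k₂, hk₂⟩ := hOp _ _ _ hy'
    let D : Finset ℕ := (Finset.range (max k₁ k₂)).filter fun x => x ∈ H i ∧ x ∉ E i
    have hD : (↑D : Set ℕ) ⊆ res Op (a :: l) := by
      intro x hx
      obtain ⟨_, hx1, hx2⟩ := Finset.mem_filter.1 (Finset.mem_coe.1 hx)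
      exact ((hH i hi).2 x hx1 hx2).1
    have hagree : ∀ x < max k₁ k₂, x ∈ (↑(E i) ∪ ↑D : Set ℕ) ↔ x ∈ H i := by
      intro x hx
      constructor
      · rintro (h | h)
        · exact (hH i hi).1 h
        · exact (Finset.mem_filter.1 (Finset.mem_coe.1 h)).2.1
      · intro h
        by_cases hE : x ∈ E i
        · exact Or.inl hE
        · exact Or.inr (Finset.mem_coe.2 (Finset.mem_filter.2 ⟨Finset.mem_range.2 hx, h, hE⟩))
    have h3 := hn D hD y (hk₁ _ fun x hx => hagree x (lt_of_lt_of_le hx (le_max_left _ _)))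
      y' (hk₂ _ fun x hx => hagree x (lt_of_lt_of_le hx (le_max_right _ _)))
      (lt_of_le_of_lt (le_max_left _ _) hlt)
    have h4 := lt_of_le_of_lt (le_max_right y n) hlt
    omega
  · -- the other case
    have hnv : ¬ Valid Op I B E (res Op l ∩ Set.Ici m) w
        (fun x => if x ∈ res Op l ∩ Set.Ici m then f x else i₀) := fun h => hN ⟨_, h⟩
    have h1 : ∀ x, (if x ∈ res Op l ∩ Set.Ici m then f x else i₀) ∈ I := by
      intro x
      split_ifs with hx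
      · exact hs.2.1 x hx.1 hx.2
      · exact hi₀
    have h2 := fun h => hnv ⟨h1, h⟩
    simp only [imp_false, not_forall] at h2
    obtain ⟨i, hi, b, hb, D, hD, y, hy, y', hy', hDi, hne⟩ := h2
    have hDf : ∀ x ∈ D, f x = i := by
      intro x hx
      have := hDi x hx
      rw [if_pos (hD hx)] at this
      exact this
    obtain ⟨k₁, hk₁⟩ := hOp _ _ _ hy
    obtain ⟨k₂, hk₂⟩ := hOp _ _ _ hy'
    refine ⟨(l, Function.update E i (E i ∪ D), max m (max k₁ k₂)), ⟨hs.1, ?_, ?_⟩,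
      ⟨List.suffix_rfl, le_max_left _ _, ?_⟩, ?_⟩
    · intro x hx hmx
      exact hs.2.1 x hx ((le_max_left _ _).trans hmx)
    · intro i' hi' x hx
      change x ∈ Function.update E i (E i ∪ D) i' at hx
      by_cases h : i' = i
      · subst h
        rw [Function.update_self] at hx
        rcases Finset.mem_union.1 hx with hx | hx
        · exact hs.2.2 i' hi' x hx
        · exact hDf x hx
      · rw [Function.update_of_ne h] at hx
        exact hs.2.2 i' hi' x hx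
    · intro i' hi'
      by_cases h : i' = i
      · subst h
        change E i' ⊆ Function.update E i' (E i' ∪ D) i' ∧
          ∀ x ∈ Function.update E i' (E i' ∪ D) i', x ∉ E i' → x ∈ res Op l ∧ m ≤ x
        rw [Function.update_self]
        refine ⟨Finset.subset_union_left, fun x hx hx' => ?_⟩
        rcases Finset.mem_union.1 hx with hx | hx
        · exact absurd hx hx'
        · exact hD hx
      · change E i' ⊆ Function.update E i (E i ∪ D) i' ∧
          ∀ x ∈ Function.update E i (E i ∪ D) i', x ∉ E i' → x ∈ res Op l ∧ m ≤ x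
        rw [Function.update_of_ne h]
        exact ⟨subset_rfl, fun x hx hx' => absurd hx hx'⟩
    · intro _ H hH
      refine ⟨i, hi, b, hb, fun _ => ?_⟩
      obtain ⟨h5, h6⟩ := hH i hi
      change (↑(Function.update E i (E i ∪ D) i) : Set ℕ) ⊆ H i at h5
      change ∀ x ∈ H i, x ∉ Function.update E i (E i ∪ D) i →
        x ∈ res Op l ∧ max m (max k₁ k₂) ≤ x at h6
      rw [Function.update_self] at h5 h6
      have hagree : ∀ x < max k₁ k₂, x ∈ H i ↔ x ∈ (↑(E i) ∪ ↑D : Set ℕ) := by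
        intro x hx
        rw [← Finset.coe_union, Finset.mem_coe]
        constructor
        · intro h
          by_contra hcon
          have h7 := (h6 x h hcon).2
          have h8 := (le_max_right m (max k₁ k₂)).trans h7
          omega
        · intro h
          exact h5 (Finset.mem_coe.2 h)
      exact ⟨y, hk₁ _ fun x hx => hagree x (lt_of_lt_of_le hx (le_max_left _ _)),
        y', hk₂ _ fun x hx => hagree x (lt_of_lt_of_le hx (le_max_right _ _)), hne⟩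

/-- The homogeneous sets built for one colouring and one point off all the boundaries. -/
theorem exists_sets [Fintype κ] [Countable 𝕆] (Op : 𝕆 → Set ℕ → Set ℕ)
    (hOp : ∀ o V y, y ∈ Op o V → ∃ k, ∀ V' : Set ℕ,
      (∀ x < k, x ∈ V' ↔ x ∈ V) → y ∈ Op o V') (w : ℕ → ℕ → Bool)
    (hw : ∀ (a : Ix κ 𝕆) (l : List (Ix κ 𝕆)), w ∉ frontier (NN Op a (res Op l)))
    (f : ℕ → κ) :
    ∃ (I : Finset κ) (H : κ → Set ℕ), (∀ i ∈ I, (H i).Infinite ∧ ∀ x ∈ H i, f x = i) ∧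
      ∀ B : κ → Finset (ℕ × 𝕆), ∑ i ∈ I, (1 / 2 : ℚ) ^ (coords (B i)).card < 1 →
        ∃ i ∈ I, ∃ b ∈ B i, Fails Op w (H i) b := by
  classical
  -- the live colours
  let live : List (Ix κ 𝕆) → Set κ := fun l => {i | (res Op l ∩ {x | f x = i}).Infinite}
  obtain ⟨l₀, -, hlive⟩ := stab (fun l l' : List (Ix κ 𝕆) => l <:+ l')
    (fun _ => List.suffix_rfl) (fun _ _ _ => List.IsSuffix.trans) live [] (Set.toFinite _) (by
      intro l l' _ h i hi
      exact Set.Infinite.mono (Set.inter_subset_inter_left _ (res_suffix Op h)) hi)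
  have hfinite : {x | x ∈ res Op l₀ ∧ f x ∉ live l₀}.Finite := by
    have h1 : {x | x ∈ res Op l₀ ∧ f x ∉ live l₀} ⊆
        ⋃ i ∈ (live l₀)ᶜ, res Op l₀ ∩ {x | f x = i} := by
      rintro x ⟨hx, hx'⟩
      exact Set.mem_biUnion (show f x ∈ (live l₀)ᶜ from hx') ⟨hx, rfl⟩
    refine Set.Finite.subset (Set.Finite.biUnion (Set.toFinite _) ?_) h1
    intro i hi
    exact Set.not_infinite.1 hi
  obtain ⟨I, hIl⟩ : ∃ I : Finset κ, ∀ i, i ∈ I ↔ i ∈ live l₀ :=
    ⟨Finset.univ.filter fun i => i ∈ live l₀, fun i => by simp⟩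
  have hI : I.Nonempty := by
    by_contra hcon
    rw [Finset.not_nonempty_iff_eq_empty] at hcon
    apply res_infinite Op l₀
    refine hfinite.subset fun x hx => ⟨hx, ?_⟩
    rw [← hIl, hcon]
    exact Finset.notMem_empty _
  obtain ⟨m₀, hm₀⟩ := hfinite.bddAbove
  have hgrow : ∀ (s : St κ 𝕆), Good Op f I l₀ s → ∀ i r,
      ∃ s', Good Op f I l₀ s' ∧ Le Op I s s' ∧ Met Op I w (Sum.inr (i, r)) s' := by
    rintro ⟨l, E, m⟩ hs i r
    by_cases hi : i ∈ I
    · have h1 : i ∈ live l := by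
        rw [hlive l hs.1, ← hIl]
        exact hi
      obtain ⟨x, ⟨hx1, hx2⟩, hx3⟩ := Set.Infinite.exists_gt h1 (max m r)
      refine ⟨(l, Function.update E i (insert x (E i)), m), ⟨hs.1, hs.2.1, ?_⟩,
        ⟨List.suffix_rfl, le_rfl, ?_⟩, ?_⟩
      · intro i' hi' z hz
        change z ∈ Function.update E i (insert x (E i)) i' at hz
        by_cases h : i' = i
        · subst h
          rw [Function.update_self] at hz
          rcases Finset.mem_insert.1 hz with rfl | hz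
          · exact hx2
          · exact hs.2.2 i' hi' z hz
        · rw [Function.update_of_ne h] at hz
          exact hs.2.2 i' hi' z hz
      · intro i' hi'
        by_cases h : i' = i
        · subst h
          change E i' ⊆ Function.update E i' (insert x (E i')) i' ∧
            ∀ z ∈ Function.update E i' (insert x (E i')) i', z ∉ E i' → z ∈ res Op l ∧ m ≤ z
          rw [Function.update_self]
          refine ⟨Finset.subset_insert _ _, fun z hz hz' => ?_⟩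
          rcases Finset.mem_insert.1 hz with rfl | hz
          · exact ⟨hx1, ((le_max_left _ _).trans_lt hx3).le⟩
          · exact absurd hz hz'
        · change E i' ⊆ Function.update E i (insert x (E i)) i' ∧
            ∀ z ∈ Function.update E i (insert x (E i)) i', z ∉ E i' → z ∈ res Op l ∧ m ≤ z
          rw [Function.update_of_ne h]
          exact ⟨subset_rfl, fun z hz hz' => absurd hz hz'⟩
      · intro _
        refine ⟨x, ?_, ((le_max_right _ _).trans_lt hx3).le⟩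
        change x ∈ Function.update E i (insert x (E i)) i
        rw [Function.update_self]
        exact Finset.mem_insert_self _ _
    · exact ⟨(l, E, m), hs, le_refl' _ _ _, fun h => absurd h hi⟩
  have hmeet : ∀ (s : {s : St κ 𝕆 // Good Op f I l₀ s})
      (t : (κ → Finset (ℕ × 𝕆)) ⊕ (κ × ℕ)),
      ∃ s' : {s : St κ 𝕆 // Good Op f I l₀ s}, Le Op I s.1 s'.1 ∧ Met Op I w t s'.1 := by
    rintro ⟨s, hs⟩ t
    rcases t with B | ⟨i, r⟩
    · obtain ⟨s', h1, h2, h3⟩ := meet_op Op hOp f I hI l₀ w hw s hs B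
      exact ⟨⟨s', h1⟩, h2, h3⟩
    · obtain ⟨s', h1, h2, h3⟩ := hgrow s hs i r
      exact ⟨⟨s', h1⟩, h2, h3⟩
  choose nx hnxle hnxmet using hmeet
  have : Nonempty ((κ → Finset (ℕ × 𝕆)) ⊕ (κ × ℕ)) := ⟨Sum.inr (f 0, 0)⟩
  obtain ⟨e, he⟩ := exists_surjective_nat ((κ → Finset (ℕ × 𝕆)) ⊕ (κ × ℕ))
  have hs₀ : Good Op f I l₀ (l₀, fun _ => ∅, m₀ + 1) := by
    refine ⟨List.suffix_rfl, fun x hx hmx => ?_, fun i _ x hx => by simp at hx⟩
    rw [hIl]
    by_contra hcon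
    have := hm₀ (show x ∈ {x | x ∈ res Op l₀ ∧ f x ∉ live l₀} from ⟨hx, hcon⟩)
    have h9 : m₀ + 1 ≤ x := hmx
    omega
  let σ : ℕ → {s : St κ 𝕆 // Good Op f I l₀ s} := fun n =>
    Nat.rec ⟨(l₀, fun _ => ∅, m₀ + 1), hs₀⟩ (fun n s => nx s (e n)) n
  have hσ : ∀ n, σ (n + 1) = nx (σ n) (e n) := fun n => rfl
  have hle : ∀ n m, n ≤ m → Le Op I (σ n).1 (σ m).1 := by
    intro n m hnm
    induction hnm with
    | refl => exact le_refl' _ _ _
    | step _ ih =>
      refine le_trans' ih ?_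
      rw [Nat.succ_eq_add_one, hσ]
      exact hnxle _ _
  let H : κ → Set ℕ := fun i => {x | ∃ n, x ∈ (σ n).1.2.1 i}
  have hcomp : ∀ n, Comp Op I (σ n).1 H := by
    intro n i hi
    refine ⟨fun x hx => ⟨n, hx⟩, ?_⟩
    rintro x ⟨n', hn'⟩ hx
    have hx' : x ∈ (σ (max n n')).1.2.1 i :=
      ((hle n' (max n n') (le_max_right _ _)).2.2 i hi).1 hn'
    exact ((hle n (max n n') (le_max_left _ _)).2.2 i hi).2 x hx' hx
  refine ⟨I, H, fun i hi => ⟨?_, ?_⟩, fun B hB => ?_⟩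
  · refine Set.infinite_of_forall_exists_gt fun r => ?_
    obtain ⟨n, hn⟩ := he (Sum.inr (i, r + 1))
    have h1 := hnxmet (σ n) (e n)
    rw [← hσ, hn] at h1
    obtain ⟨x, hx, hrx⟩ := h1 hi
    exact ⟨x, ⟨n + 1, hx⟩, hrx⟩
  · rintro x ⟨n, hn⟩
    exact (σ n).2.2.2 i hi x hn
  · obtain ⟨n, hn⟩ := he (Sum.inl B)
    have h2 := hnxmet (σ n) (e n)
    rw [← hσ, hn] at h2
    exact h2 hB H (hcomp (n + 1))

/-- The coordinates for which a set computes an infinite homogeneous set. -/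
def Solved (Op : 𝕆 → Set ℕ → Set ℕ) (w : ℕ → ℕ → Bool) (H : Set ℕ) : Set ℕ :=
  {j | ∃ o, ¬ Fails Op w H (j, o)}

/-- The generic point: for every colouring there are homogeneous sets which solve few
coordinates. -/
theorem exists_weak [Countable 𝕆] (Op : 𝕆 → Set ℕ → Set ℕ)
    (hOp : ∀ o V y, y ∈ Op o V → ∃ k, ∀ V' : Set ℕ,
      (∀ x < k, x ∈ V' ↔ x ∈ V) → y ∈ Op o V') :
    ∃ w : ℕ → ℕ → Bool, ∀ (c : ℕ) (f : ℕ → Fin c), ∃ (I : Finset (Fin c)) (H : Fin c → Set ℕ),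
      (∀ i ∈ I, (H i).Infinite ∧ (∀ x ∈ H i, f x = i) ∧ (Solved Op w (H i)).Finite) ∧
        1 ≤ ∑ i ∈ I, (1 / 2 : ℚ) ^ (Solved Op w (H i)).ncard := by
  classical
  obtain ⟨w, hw⟩ := exists_generic Op
  refine ⟨w, fun c f => ?_⟩
  obtain ⟨I, H, hH, hB⟩ := exists_sets Op hOp w (hw c) f
  refine ⟨I.filter fun i => (Solved Op w (H i)).Finite, H, fun i hi => ?_, ?_⟩
  · obtain ⟨h1, h2⟩ := Finset.mem_filter.1 hi
    exact ⟨(hH i h1).1, (hH i h1).2, h2⟩
  by_contra hcon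
  rw [not_le] at hcon
  obtain ⟨ε, hε⟩ : ∃ ε : ℚ, ε = 1 - ∑ i ∈ I.filter (fun i => (Solved Op w (H i)).Finite),
    (1 / 2 : ℚ) ^ (Solved Op w (H i)).ncard := ⟨_, rfl⟩
  have hε0 : 0 < ε := by linarith
  obtain ⟨M, hM⟩ := exists_pow_lt_of_lt_one (show (0 : ℚ) < ε / (c + 1) by positivity)
    (show (1 / 2 : ℚ) < 1 by norm_num)
  -- finite sets of solved coordinates
  have hJ : ∀ i, ∃ J : Finset ℕ, ↑J ⊆ Solved Op w (H i) ∧
      ((Solved Op w (H i)).Finite → J.card = (Solved Op w (H i)).ncard) ∧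
      (¬ (Solved Op w (H i)).Finite → J.card = M) := by
    intro i
    by_cases h : (Solved Op w (H i)).Finite
    · refine ⟨h.toFinset, by simp, fun _ => ?_, fun h' => absurd h h'⟩
      rw [Set.ncard_eq_toFinset_card _ h]
    · obtain ⟨J, hJ, hJc⟩ := Set.Infinite.exists_subset_card_eq h M
      exact ⟨J, hJ, fun h' => absurd h' h, fun _ => hJc⟩
  choose J hJs hJf hJi using hJ
  have hO : ∀ i j, ∃ o : Option 𝕆, j ∈ J i → ∃ o', o = some o' ∧ ¬ Fails Op w (H i) (j, o') := by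
    intro i j
    by_cases h : j ∈ J i
    · obtain ⟨o, ho⟩ := hJs i h
      exact ⟨some o, fun _ => ⟨o, rfl, ho⟩⟩
    · exact ⟨none, fun h' => absurd h' h⟩
  choose O hO using hO
  let B : Fin c → Finset (ℕ × 𝕆) := fun i =>
    (J i).biUnion fun j => ((O i j).toFinset).image fun o => (j, o)
  have hBmem : ∀ i (b : ℕ × 𝕆), b ∈ B i → ¬ Fails Op w (H i) b := by
    intro i b hb
    obtain ⟨j, hj, hb⟩ := Finset.mem_biUnion.1 hb
    obtain ⟨o, ho, rfl⟩ := Finset.mem_image.1 hb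
    obtain ⟨o', ho', hf⟩ := hO i j hj
    rw [Option.mem_toFinset, ho', Option.mem_def, Option.some_inj] at ho
    rw [← ho]
    exact hf
  have hcoords : ∀ i, coords (B i) = J i := by
    intro i
    ext j
    rw [mem_coords]
    constructor
    · rintro ⟨o, ho⟩
      obtain ⟨j', hj', hb⟩ := Finset.mem_biUnion.1 ho
      obtain ⟨o', _, he⟩ := Finset.mem_image.1 hb
      have : j' = j := congrArg Prod.fst he
      rw [← this]
      exact hj'
    · intro hj
      obtain ⟨o', ho', _⟩ := hO i j hj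
      refine ⟨o', Finset.mem_biUnion.2 ⟨j, hj, Finset.mem_image.2 ⟨o', ?_, rfl⟩⟩⟩
      rw [Option.mem_toFinset, ho']
      rfl
  have hsum : ∑ i ∈ I, (1 / 2 : ℚ) ^ (coords (B i)).card < 1 := by
    rw [← Finset.sum_filter_add_sum_filter_not I (fun i => (Solved Op w (H i)).Finite)]
    have e1 : ∑ i ∈ I.filter (fun i => (Solved Op w (H i)).Finite),
        (1 / 2 : ℚ) ^ (coords (B i)).card
        = ∑ i ∈ I.filter (fun i => (Solved Op w (H i)).Finite),
          (1 / 2 : ℚ) ^ (Solved Op w (H i)).ncard := by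
      apply Finset.sum_congr rfl
      intro i hi
      rw [hcoords, hJf i (Finset.mem_filter.1 hi).2]
    have e2 : ∑ i ∈ I.filter (fun i => ¬ (Solved Op w (H i)).Finite),
        (1 / 2 : ℚ) ^ (coords (B i)).card
        = (I.filter fun i => ¬ (Solved Op w (H i)).Finite).card * (1 / 2 : ℚ) ^ M := by
      rw [Finset.sum_congr rfl (g := fun _ => (1 / 2 : ℚ) ^ M), Finset.sum_const, nsmul_eq_mul]
      intro i hi
      rw [hcoords, hJi i (Finset.mem_filter.1 hi).2]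
    rw [e1, e2]
    have h3 : ((I.filter fun i => ¬ (Solved Op w (H i)).Finite).card : ℚ) ≤ c := by
      have h4 := Finset.card_le_univ (I.filter fun i => ¬ (Solved Op w (H i)).Finite)
      rw [Fintype.card_fin] at h4
      exact_mod_cast h4
    have h5 : ((I.filter fun i => ¬ (Solved Op w (H i)).Finite).card : ℚ) * (1 / 2 : ℚ) ^ M
        ≤ c * (1 / 2 : ℚ) ^ M := mul_le_mul_of_nonneg_right h3 (by positivity)
    have h6 : (c : ℚ) * (1 / 2 : ℚ) ^ M < ε := by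
      have h7 : (c + 1 : ℚ) * (1 / 2 : ℚ) ^ M < ε := by
        have h8 : (0 : ℚ) < c + 1 := by positivity
        calc (c + 1 : ℚ) * (1 / 2 : ℚ) ^ M < (c + 1) * (ε / (c + 1)) :=
              mul_lt_mul_of_pos_left hM h8
          _ = ε := by field_simp
      have h9 : (0 : ℚ) < (1 / 2 : ℚ) ^ M := by positivity
      linarith
    linarith
  obtain ⟨i, hi, b, hb, hf⟩ := hB B hsum
  exact hBmem i b hb hf

end

end Pool.Agent.Helper20.RW
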