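import Mathlib
import Pool.Agent.Helper90.Sol.Use
import Pool.Agent.Helper20.RW.Forcing

set_option autoImplicit false

namespace Pool.Agent.Helper20.RW

open Nat.Partrec Pool.Agent.Helper90.Sol

/-- The characteristic function of the join of two sets. -/
def chi (H Z : ℕ → Bool) (n : ℕ) : ℕ :=
  (if n % 2 = 0 then H (n / 2) else Z (n / 2)).toNat

/-- The characteristic function of a set. -/
noncomputable def ind (V : Set ℕ) (x : ℕ) : Bool :=
  open Classical in decide (x ∈ V)

theorem ind_eq_true (V : Set ℕ) (x : ℕ) : ind V x = true ↔ x ∈ V := by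
  unfold ind
  simp

/-- The output of a program on the join of a set with `Z`, used through its finite initial
segments. -/
noncomputable def Out (Z : ℕ → Bool) (c : Code) (V : Set ℕ) : Set ℕ :=
  {y | ∃ k, 1 ∈ c.eval (Encodable.encode (seg (chi (ind V) Z) k, y))}

theorem out_cont (Z : ℕ → Bool) (c : Code) (V : Set ℕ) (y : ℕ) (h : y ∈ Out Z c V) :
    ∃ k, ∀ V' : Set ℕ, (∀ x < k, x ∈ V' ↔ x ∈ V) → y ∈ Out Z c V' := by
  obtain ⟨k, hk⟩ := h
  refine ⟨k, fun V' hV => ⟨k, ?_⟩⟩
  have e : seg (chi (ind V') Z) k = seg (chi (ind V) Z) k := by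
    unfold seg
    apply List.map_congr_left
    intro n hn
    have hn' := List.mem_range.1 hn
    have h1 : ind V' (n / 2) = ind V (n / 2) := by
      have h2 := hV (n / 2) (by omega)
      rw [← ind_eq_true, ← ind_eq_true] at h2
      exact Bool.eq_iff_iff.2 h2
    unfold chi
    rw [h1]
  rw [e]
  exact hk

theorem exists_out (G H Z : ℕ → Bool)
    (h : TuringReducible (fun n : ℕ => (Part.some (G n).toNat : Part ℕ))
      (fun n : ℕ => (Part.some (chi H Z n) : Part ℕ))) :
    ∃ c : Code, Out Z c {x | H x = true} = {x | G x = true} := by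
  obtain ⟨F, hF, hU⟩ := exists_use (chi H Z) _ h
  obtain ⟨c, hc⟩ := Code.exists_code.1 hF
  have hind : ind {x | H x = true} = H := by
    funext x
    apply Bool.eq_iff_iff.2
    rw [ind_eq_true]
    exact Iff.rfl
  have hev : ∀ (σ : List ℕ) (y : ℕ), 1 ∈ c.eval (Encodable.encode (σ, y)) ↔ 1 ∈ F σ y := by
    intro σ y
    rw [hc]
    simp
  refine ⟨c, ?_⟩
  ext y
  change (∃ k, 1 ∈ c.eval (Encodable.encode (seg (chi (ind {x | H x = true}) Z) k, y)))
    ↔ G y = true
  rw [hind]
  simp only [hev]
  have h1 := hU.spec y 1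
  unfold seg
  rw [← h1]
  cases hy : G y <;> simp [hy]

/-- A set is computable from its join with any other set. -/
theorem reducible_join (H Z : ℕ → Bool) :
    TuringReducible (fun n : ℕ => (Part.some (H n).toNat : Part ℕ))
      (fun n : ℕ => (Part.some (chi H Z n) : Part ℕ)) := by
  apply RecursiveIn.iff_nat.2
  have h1 : Nat.Partrec (fun n : ℕ => (Part.some (2 * n) : Part ℕ)) := by
    have h2 : Computable fun n : ℕ => 2 * n :=
      (Primrec.nat_mul.comp (Primrec.const 2) Primrec.id).to_comp
    exact Partrec.nat_iff.1 h2.partrec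
  have h3 := Nat.RecursiveIn.comp
    (Nat.RecursiveIn.oracle (O := {fun n : ℕ => (Part.some (chi H Z n) : Part ℕ)}) _ rfl)
    (Nat.Partrec.recursiveIn (O := {fun n : ℕ => (Part.some (chi H Z n) : Part ℕ)}) h1)
  refine Nat.RecursiveIn.of_eq h3 fun n => ?_
  have h4 : chi H Z (2 * n) = (H n).toNat := by
    unfold chi
    rw [if_pos (by omega)]
    congr 2
    omega
  simp [h4]

end Pool.Agent.Helper20.RW
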